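import Pool.Agent.P8H35.HS.Main

/-!
# Gorenstein section rings of dimension at most four, and of coindex at most three

`S` a Noetherian `ℕ`-graded algebra over a field `k` (any characteristic) with `S₀ = k`, Gorenstein
of dimension `D` and with `a`-invariant `a < 0`, such that the sheaf `O(1)` on `Proj S` is
invertible. If `a ≤ 3 - D`, in particular if `D ≤ 4`, then `S₁ ≠ 0`, and even `dim S₁ ≥ D - 1`.

No domain, normality, or rationality of singularities is assumed, and the proof is algebraic: it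
uses no geometric vanishing theorem and no Riemann-Roch formula. Idea: Noetherian induction over
homogeneous ideals shows that the Hilbert series has its only pole at `1`. Modulo a homogeneous
system of parameters the ring is Artinian Gorenstein, with symmetric Hilbert function. Hence the
Hilbert series is `h / (1 - t) ^ D` with `h` palindromic of degree `a + D`, `h(0) = 1`, `h(1) > 0`,
and `dim S₁ = D + h₁`; if `a + D ≤ 3` the number `h₁` is determined by `h(1)`.
-/

set_option autoImplicit false

namespace Pool.Agent.Results.MP_954e53_ag.DimensionFour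

open Pool.Agent.P8H35.HS

variable {k S : Type*} [Field k] [CommRing S] [Algebra k S] (𝒜 : ℕ → Submodule k S)
  [GradedAlgebra 𝒜]

/-- Every homogeneous prime ideal which does not contain all forms of positive degree misses forms
of two consecutive degrees. If `S` is the section ring of an ample invertible sheaf, this is
satisfied, since all large powers of the sheaf are generated by global sections. -/
def InvertibleSheaf : Prop :=
  ∀ P : Ideal S, P.IsPrime → P.IsHomogeneous 𝒜 → (∃ n, 0 < n ∧ ∃ x ∈ 𝒜 n, x ∉ P) →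
    ∃ n, (∃ x ∈ 𝒜 n, x ∉ P) ∧ ∃ x ∈ 𝒜 (n + 1), x ∉ P

/-- `S` is Gorenstein of dimension `D` with `a`-invariant `a`: there is a regular sequence of `D`
forms `θ i` of positive degrees `e i` such that `S / (θ)` vanishes in large degrees and its socle is
one-dimensional, spanned by the class of a form `z` of degree `a + ∑ e i`. -/
def GorensteinOf (D : ℕ) (a : ℤ) : Prop :=
  ∃ (θ : Fin D → S) (e : Fin D → ℕ) (N σ : ℕ) (z : S),
    (∀ i, 0 < e i) ∧ (∀ i, θ i ∈ 𝒜 (e i)) ∧
    RingTheory.Sequence.IsWeaklyRegular S (List.ofFn θ) ∧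
    (∀ n, N ≤ n → ∀ x ∈ 𝒜 n, x ∈ Ideal.span (Set.range θ)) ∧
    (σ : ℤ) = a + ∑ i, (e i : ℤ) ∧ z ∈ 𝒜 σ ∧ z ∉ Ideal.span (Set.range θ) ∧
    ∀ y : S, (∀ m, 0 < m → ∀ x ∈ 𝒜 m, x * y ∈ Ideal.span (Set.range θ)) ↔
      ∃ c : k, y - c • z ∈ Ideal.span (Set.range θ)

/-- Gorenstein section rings of dimension `D` with `a`-invariant `a < 0` and `a ≤ 3 - D`. -/
theorem result [IsNoetherianRing S] (h0 : ∀ x ∈ 𝒜 0, ∃ c : k, x = algebraMap k S c)
    (hinv : InvertibleSheaf 𝒜) (D : ℕ) (a : ℤ) (hG : GorensteinOf 𝒜 D a) (ha : a < 0)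
    (hD : D ≤ 4 ∨ a ≤ 3 - D) :
    (∃ x ∈ 𝒜 1, x ≠ 0) ∧ D ≤ Module.finrank k (𝒜 1) + 1 ∧
      (a ≠ 2 - D → D ≤ Module.finrank k (𝒜 1)) := by
  obtain ⟨θ, e, N, σ, z, he, hθ, hreg, hN, hσ, hz, hzJ, hsoc⟩ := hG
  obtain ⟨h, hF, hrev, hc0, h1, hdeg⟩ := numerator h0 hinv θ e he hθ hreg hN hz hzJ
    (fun y hy => (hsoc y).1 hy)
  have hdeg' : (h.natDegree : ℤ) = a + D := by
    have h2 : (h.natDegree : ℤ) + ∑ i, (e i : ℤ) = σ + D := by exact_mod_cast hdeg
    linarith
  have hd3 : h.natDegree ≤ 3 := by
    rcases hD with hD | hD <;> omega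
  have hF0 : Module.finrank k (𝒜 0) = 1 := by
    have h2 := congrArg (PowerSeries.coeff 0) hF
    rw [Polynomial.coeff_coe, hc0, PowerSeries.coeff_zero_eq_constantCoeff_apply, map_mul, map_pow,
      map_sub, map_one, PowerSeries.constantCoeff_X, sub_zero, one_pow, one_mul,
      ← PowerSeries.coeff_zero_eq_constantCoeff_apply, PowerSeries.coeff_mk] at h2
    exact_mod_cast h2
  have hF1 : (Module.finrank k (𝒜 1) : ℤ) = D + h.coeff 1 := by
    have h2 := coeff_one_numerator hF (by rw [PowerSeries.coeff_mk, hF0]; rfl)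
    rwa [PowerSeries.coeff_mk] at h2
  have hsym : ∀ i ≤ h.natDegree, h.coeff i = h.coeff (h.natDegree - i) := by
    intro i hi
    conv_lhs => rw [← hrev]
    rw [Polynomial.coeff_reverse, Polynomial.revAt_le hi]
  have hzero : ∀ i, h.natDegree < i → h.coeff i = 0 :=
    fun i hi => Polynomial.coeff_eq_zero_of_natDegree_lt hi
  rw [Polynomial.eval_eq_sum_range] at h1
  simp only [one_pow, mul_one] at h1
  have key : (D : ℤ) ≤ Module.finrank k (𝒜 1) + 1 ∧ (a ≠ 2 - D → (D : ℤ) ≤ Module.finrank k (𝒜 1))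
      ∧ (1 : ℤ) ≤ Module.finrank k (𝒜 1) := by
    rw [hF1]
    generalize h.natDegree = d at *
    have hd : d = 0 ∨ d = 1 ∨ d = 2 ∨ d = 3 := by omega
    rcases hd with rfl | rfl | rfl | rfl
    · have h2 := hzero 1 (by norm_num)
      omega
    · have h2 := hsym 0 (by norm_num)
      simp only [Nat.sub_zero] at h2
      omega
    · have h2 := hsym 0 (by norm_num)
      simp only [Nat.sub_zero] at h2
      rw [Finset.sum_range_succ, Finset.sum_range_succ, Finset.sum_range_succ,
        Finset.sum_range_zero] at h1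
      omega
    · have h2 := hsym 0 (by norm_num)
      have h3 := hsym 1 (by norm_num)
      simp only [Nat.sub_zero, Nat.reduceSub] at h2 h3
      rw [Finset.sum_range_succ, Finset.sum_range_succ, Finset.sum_range_succ,
        Finset.sum_range_succ, Finset.sum_range_zero] at h1
      omega
  refine ⟨?_, by exact_mod_cast key.1, fun h => by exact_mod_cast key.2.1 h⟩
  by_contra hcon
  push Not at hcon
  have h2 : 𝒜 1 = ⊥ := by
    rw [eq_bot_iff]
    intro x hx
    rw [Submodule.mem_bot]
    exact hcon x hx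
  have h3 := key.2.2
  rw [h2, finrank_bot] at h3
  norm_num at h3

end Pool.Agent.Results.MP_954e53_ag.DimensionFour
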