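import Pool.Agent.P8H35.TR.Main
import Pool.Agent.P8H35.TR.Decomp

/-!
# Automorphisms of finite order with a small fixed locus give sections of degree one

`S` is a Noetherian `ℕ`-graded algebra over an algebraically closed field `k` of characteristic
zero with `S₀ = k`, Gorenstein of dimension `D` with `a`-invariant `a` (no bound on `D`), and `σ` a
graded automorphism of finite order. The points of `X = Proj S` fixed by `σ` at which `σ` acts on
the fibre of `O(1)` by the scalar `τ` are the zeros of the ideal `J_τ` generated by the elements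
`σ s - τ ^ n s`, `s ∈ S_n`. Let the dimension of `S / J_τ` be at most `d τ` (that is, the dimension
of the set of these fixed points is at most `d τ - 1`; it is empty if `d τ = 0`), and
`R = ∑ τ, d τ ≤ 1 - a`. If `∑ τ, d τ * τ` is not zero in the case `R = - a`, and not a
root of unity in the case `R = 1 - a`, then `S₁ ≠ 0`.

For example: if `a < 0`, the fixed points of `σ` form a closed subset of `X` of dimension at most
`- a`, and `σ` acts by the same scalar on the fibres of `O(1)` at all of them, then `S₁ ≠ 0`. This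
applies to every automorphism of finite order which has a unique fixed point, or whose fixed locus
is a connected curve. It also applies if `a = -1` and `σ` has finitely many fixed points with two
characters whose quotient is not a primitive cube root of unity (for instance if `σ` is an
involution with isolated fixed points).

The sheaf `O(1)` needs not be invertible outside the fixed points, and no condition on the
singularities is needed besides the Gorenstein property.

Proof: Noetherian induction over the homogeneous `σ`-stable ideals `I` shows that the series of the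
traces of `σ` on `(S / I)_n` is a rational function with a pole at `1 / τ` of order at most `d τ`,
and without other poles. By the Gorenstein property, the series of `S` has degree `a`, and its
leading coefficient is up to the sign the eigenvalue of `σ` on a socle. So the product of the
series with `∏ (1 - τ t) ^ d τ` is a polynomial of degree `a + R ≤ 1` with constant coefficient one
and leading coefficient a root of unity, and the trace of `σ` on `S₁` is `∑ d τ * τ` (if
`R = - a`), or this sum plus a root of unity (if `R = 1 - a`).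
-/

set_option autoImplicit false

namespace Pool.Agent.Results.MP_954e53_ag.FiniteOrderAutomorphisms

open DirectSum Pool.Agent.P8H35.TR

variable {k S : Type*} [Field k] [CommRing S] [Algebra k S] (𝒜 : ℕ → Submodule k S)
  [GradedAlgebra 𝒜] (σ : S ≃ₐ[k] S)

/-- the ideal `J_τ` of the fixed points with the character `τ`, generated by the elements
`σ s - τ ^ n s`, `s` a form of degree `n` -/
def fixIdeal (τ : k) : Ideal S :=
  Ideal.span {y | ∃ n, ∃ s ∈ 𝒜 n, y = σ s - τ ^ n • s}

/-- the dimension of `S / J_τ` is at most `r`: the forms of large degree are contained in the ideal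
generated by `J_τ` and `r` forms of positive degree -/
def FixedConeDimLE (τ : k) (r : ℕ) : Prop :=
  ∃ t : Finset S, t.card ≤ r ∧ (∀ x ∈ t, ∃ n, 0 < n ∧ x ∈ 𝒜 n) ∧
    ∃ N, ∀ n, N ≤ n → ∀ x ∈ 𝒜 n, x ∈ fixIdeal 𝒜 σ τ ⊔ Ideal.span (t : Set S)

/-- `S` is Gorenstein of dimension `D` with `a`-invariant `a`, tested on `σ`-invariant parameters:
there is a regular sequence of `D` `σ`-invariant forms `θ i` of positive degrees `e i` such that
`S / (θ)` vanishes in large degrees and its socle is one-dimensional, spanned by the class of a form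
`z` of degree `a + ∑ e i`. (`S` is finite over the ring of invariants of `σ`, so there is a
homogeneous system of parameters consisting of invariants.) -/
def GorensteinOf (D : ℕ) (a : ℤ) : Prop :=
  ∃ (θ : Fin D → S) (e : Fin D → ℕ) (N s : ℕ) (z : S),
    (∀ i, 0 < e i) ∧ (∀ i, θ i ∈ 𝒜 (e i)) ∧ (∀ i, σ (θ i) = θ i) ∧
    RingTheory.Sequence.IsWeaklyRegular S (List.ofFn θ) ∧
    (∀ n, N ≤ n → ∀ x ∈ 𝒜 n, x ∈ Ideal.span (Set.range θ)) ∧
    (s : ℤ) = a + ∑ i, (e i : ℤ) ∧ z ∈ 𝒜 s ∧ z ∉ Ideal.span (Set.range θ) ∧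
    ∀ y : S, (∀ m, 0 < m → ∀ x ∈ 𝒜 m, x * y ∈ Ideal.span (Set.range θ)) ↔
      ∃ c : k, y - c • z ∈ Ideal.span (Set.range θ)

/-- Gorenstein rings with an automorphism of finite order with a small fixed locus. -/
theorem result [IsAlgClosed k] [CharZero k] [IsNoetherianRing S]
    (h0 : ∀ x ∈ 𝒜 0, ∃ c : k, x = algebraMap k S c)
    (hσ : ∀ n, ∀ x ∈ 𝒜 n, σ x ∈ 𝒜 n) (hfin : IsOfFinOrder σ)
    (D : ℕ) (a : ℤ) (hG : GorensteinOf 𝒜 σ D a)
    (d : kˣ →₀ ℕ) (hd : ∀ τ : kˣ, FixedConeDimLE 𝒜 σ (τ : k) (d τ))
    (htors : ∀ τ ∈ d.support, IsOfFinOrder τ)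
    (hR : ((∑ τ ∈ d.support, d τ : ℕ) : ℤ) ≤ 1 - a)
    (h1 : ((∑ τ ∈ d.support, d τ : ℕ) : ℤ) = -a → ∑ τ ∈ d.support, (d τ : k) * τ ≠ 0)
    (h2 : ((∑ τ ∈ d.support, d τ : ℕ) : ℤ) = 1 - a →
      ¬ IsOfFinOrder (∑ τ ∈ d.support, (d τ : k) * τ)) :
    ∃ x ∈ 𝒜 1, x ≠ 0 := by
  classical
  obtain ⟨θ, e, N, s, z, he, hθ, hθσ, hreg, hN, hs, hz, hzJ, hsoc⟩ := hG
  -- the bigrading
  set m : ℕ := orderOf σ with hm
  have hmpos : 0 < m := hfin.orderOf_pos
  have : NeZero m := ⟨hmpos.ne'⟩
  have : NeZero (m : k) := ⟨by exact_mod_cast hmpos.ne'⟩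
  obtain ⟨ζ, hζ⟩ := HasEnoughRootsOfUnity.exists_primitiveRoot k m
  set χ : AddChar (ZMod m) k := AddChar.zmodChar m hζ.pow_eq_one with hχdef
  have hχ : Function.Injective χ := by
    intro i j hij
    rw [hχdef, AddChar.zmodChar_apply, AddChar.zmodChar_apply] at hij
    have h3 := hζ.pow_inj (ZMod.val_lt i) (ZMod.val_lt j) hij
    exact ZMod.val_injective m h3
  set f : S →ₐ[k] S := (σ : S →ₐ[k] S) with hf
  have hfσ : ∀ n, ∀ x ∈ 𝒜 n, f x ∈ 𝒜 n := hσ
  have hfm : f.toLinearMap ^ m = 1 := by
    have h3 : ∀ i : ℕ, ∀ x, (f.toLinearMap ^ i) x = (σ ^ i) x := by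
      intro i
      induction i with
      | zero => intro x; rfl
      | succ i ih =>
        intro x
        rw [pow_succ', pow_succ']
        change f ((f.toLinearMap ^ i) x) = σ ((σ ^ i) x)
        rw [ih]
        rfl
    apply LinearMap.ext
    intro x
    rw [h3, hm, pow_orderOf_eq_one]
    rfl
  have hm0 : (m : k) ≠ 0 := NeZero.ne _
  let _ := bigrading 𝒜 hfσ hfm hm0 hχ
  have hsum : ∀ x : S, ∑ b, pr f χ b x = x := sum_pr hm0 hχ
  have hprm : ∀ (b : ZMod m) {n : ℕ} {x : S}, x ∈ 𝒜 n → pr f χ b x ∈ eig 𝒜 f χ (n, b) :=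
    fun b {n x} hx => pr_mem 𝒜 hfσ hfm b hx
  have hcomp : ∀ {n : ℕ} {x : S}, x ∈ 𝒜 n → ∀ j : ℕ × ZMod m, j.1 ≠ n →
      decompose (eig 𝒜 f χ) x j = 0 := by
    intro n x hx j hj
    apply Subtype.ext
    rw [← hsum x, comp_finset_sum, Submodule.coe_zero]
    apply Finset.sum_eq_zero
    intro b _
    exact decompose_of_mem_ne _ (hprm b hx) (fun h => hj (by rw [← h]))
  have hscal : ∀ x ∈ eig 𝒜 f χ 0, ∃ c : k, x = algebraMap k S c := fun x hx => h0 x hx.1
  have hmem : ∀ {J : Ideal S} {n : ℕ} {y : S},
      (∀ b, ∀ x ∈ eig 𝒜 f χ (n, b), x * y ∈ J) → ∀ x ∈ 𝒜 n, x * y ∈ J := by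
    intro J n y h x hx
    rw [← hsum x, Finset.sum_mul]
    exact J.sum_mem fun b _ => h b _ (hprm b hx)
  obtain ⟨b, h, hdeg, hlead, hc0, htr⟩ := trace_one (ℬ := eig 𝒜 f χ) χ hχ hscal
    (by
      rintro c hc x ⟨hx1, hx2⟩
      obtain ⟨r, rfl⟩ := h0 x hx1
      have h3 : f (algebraMap k S r) = algebraMap k S r := f.commutes r
      rw [h3] at hx2
      have h4 : (χ c - 1) • (algebraMap k S r) = 0 := by
        rw [sub_smul, one_smul, ← hx2, sub_self]
      rcases smul_eq_zero.1 h4 with h5 | h5
      · exfalso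
        apply hc
        apply hχ
        rw [AddChar.map_zero_eq_one]
        exact sub_eq_zero.1 h5
      · exact h5)
    θ e he
    (fun i => ⟨hθ i, by
      change σ (θ i) = χ 0 • θ i
      rw [AddChar.map_zero_eq_one, one_smul, hθσ i]⟩)
    hreg (N := N) (fun n hn _ x hx => hN n hn x hx.1) (s := s) (z := z) (hcomp hz) hzJ
    (fun y hy => (hsoc y).1 (fun l hl => hmem (hy l hl))) d
    (by
      intro τ
      obtain ⟨t, htc, ht, N', hN'⟩ := hd τ
      refine ⟨t, htc, ?_, N', ?_⟩
      · intro x hx
        obtain ⟨n, hn, hxn⟩ := ht x hx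
        exact ⟨n, hn, hcomp hxn⟩
      · intro n hn c x hx
        have h3 : fixIdeal 𝒜 σ (τ : k) ≤ fixI (eig 𝒜 f χ) χ (τ : k) := by
          rw [fixIdeal, Ideal.span_le]
          rintro y ⟨l, w, hw, rfl⟩
          have h4 : σ w - (τ : k) ^ l • w = ∑ c, (χ c - (τ : k) ^ l) • pr f χ c w := by
            have h5 : σ w = ∑ c, χ c • pr f χ c w := by
              conv_lhs => rw [← hsum w]
              rw [map_sum]
              exact Finset.sum_congr rfl fun c _ => (hprm c hw).2
            rw [h5]
            conv_lhs => rw [← hsum w]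
            rw [Finset.smul_sum]
            simp only [hsum w]
            rw [← Finset.sum_sub_distrib]
            exact Finset.sum_congr rfl fun c _ => (sub_smul _ _ _).symm
          rw [h4]
          apply Ideal.sum_mem
          intro c _
          by_cases hc : χ c = (τ : k) ^ l
          · rw [hc, sub_self, zero_smul]
            exact Ideal.zero_mem _
          · rw [Algebra.smul_def]
            exact Ideal.mul_mem_left _ _ (Ideal.subset_span ⟨l, c, hprm c hw, hc⟩)
        exact sup_le_sup_right h3 _ (hN' n hn x hx.1))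
  by_contra hcon
  push Not at hcon
  -- the trace is zero
  have hzero : ∀ c : ZMod m, Module.finrank k (eig 𝒜 f χ (1, c)) = 0 := by
    intro c
    have h3 : eig 𝒜 f χ (1, c) = ⊥ := by
      rw [eq_bot_iff]
      intro x hx
      rw [Submodule.mem_bot]
      exact hcon x hx.1
    rw [h3]
    exact finrank_bot _ _
  rw [Finset.sum_eq_zero (fun c _ => by rw [hzero c]; simp)] at htr
  have hdeg' : (h.natDegree : ℤ) = a + ((∑ τ ∈ d.support, d τ : ℕ) : ℤ) := by
    have h3 : (h.natDegree : ℤ) + ∑ i, (e i : ℤ) = s + ((∑ τ ∈ d.support, d τ : ℕ) : ℤ) := by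
      exact_mod_cast hdeg
    linarith
  have hcase : h.natDegree = 0 ∨ h.natDegree = 1 := by omega
  rcases hcase with h3 | h3
  · apply h1 (by omega)
    rw [Polynomial.coeff_eq_zero_of_natDegree_lt (by omega), add_zero] at htr
    exact htr.symm
  · apply h2 (by omega)
    have h4 : ∑ τ ∈ d.support, (d τ : k) * τ = -h.leadingCoeff := by
      rw [Polynomial.leadingCoeff, h3]
      exact eq_neg_of_add_eq_zero_left htr.symm
    rw [h4]
    have hneg : IsOfFinOrder (-1 : k) := isOfFinOrder_iff_pow_eq_one.2 ⟨2, two_pos, by norm_num⟩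
    have h5 : h.leadingCoeff = χ b * (∏ τ ∈ d.support, (-(τ : k)) ^ d τ) * (-1) ^ D := by
      rw [← hlead, mul_assoc, ← mul_pow]
      norm_num
    have hprod : ∀ t : Finset kˣ, (∀ τ ∈ t, IsOfFinOrder τ) →
        IsOfFinOrder (∏ τ ∈ t, (-(τ : k)) ^ d τ) := by
      intro t
      induction t using Finset.induction_on with
      | empty => intro _; rw [Finset.prod_empty]; exact IsOfFinOrder.one
      | insert τ t hτ ih =>
        intro ht
        rw [Finset.prod_insert hτ]
        apply IsOfFinOrder.mul
        · apply IsOfFinOrder.pow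
          have h6 : -(τ : k) = (-1) * τ := by ring
          rw [h6]
          apply hneg.mul
          obtain ⟨l, hl, hl1⟩ := isOfFinOrder_iff_pow_eq_one.1 (ht τ (Finset.mem_insert_self _ _))
          apply isOfFinOrder_iff_pow_eq_one.2 ⟨l, hl, _⟩
          rw [← Units.val_pow_eq_pow_val, hl1, Units.val_one]
        · exact ih (fun τ' h' => ht τ' (Finset.mem_insert_of_mem h'))
    have h6 : -h.leadingCoeff = (-1) * h.leadingCoeff := by ring
    rw [h6, h5]
    refine hneg.mul (((?_ : IsOfFinOrder (χ b)).mul (hprod _ htors)).mul hneg.pow)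
    exact isOfFinOrder_iff_pow_eq_one.2 ⟨m, hmpos, chi_pow χ b⟩

end Pool.Agent.Results.MP_954e53_ag.FiniteOrderAutomorphisms
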