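import Pool.Agent.P8H35.TR.SymMain
import Pool.Agent.P8H35.TR.Asym

/-!
# Automorphisms with fixed loci of dimension at most `2 - a`

`S` is a Noetherian `ℕ`-graded algebra over the complex numbers with `S₀ = ℂ`, Gorenstein of
arbitrary dimension with `a`-invariant `a < 0`, and `G` is a finite group of graded automorphisms.
We say that `g` has a small fixed locus if

* `g` acts trivially on the fibres of `O(1)` at its fixed points on `X = Proj S`,
* the fixed locus of `g` on `X` has dimension at most `2 - a`, and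
* the trace of `g` on `S_n` has nonnegative real part for infinitely many `n`.

If `X` is regular at the generic points of the fixed locus of `g`, then by the Lefschetz formula the
last condition is automatic for involutions, and also if `g` fixes the generator of the canonical
module of `S` and the fixed locus has codimension two: the leading coefficients
`1 / det (1 - g | conormal)` of the trace are positive. It is automatic too if the fixed locus is empty.

(1) If some `g` has a small fixed locus, then `S₁ ≠ 0`. (For `g = 1` the hypothesis is that the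
coindex is at most three.)

(2) If `G ≠ 1` acts trivially on the socle of `S / (θ)` (that is, on the generator of the canonical
module, so that `S ^ G` is Gorenstein with the same `a`-invariant) and all `g ≠ 1` have
small fixed loci, then `(S ^ G)₁ ≠ 0`.

For example (2) applies to the section ring of `(X', L)`, `X'` a Fano variety with
Gorenstein canonical singularities, `- K = r L`, `L` invertible, `r ≥ 1`, of dimension at most `4 + r`,
that has a nontrivial finite Galois covering `X → X'`, étale in codimension one, with `X`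
regular at the generic points of the fixed loci, these being of codimension two.

Proof: let `d = 3 - a`. The series `∑ tr (g | S_n) T ^ n` times `(1 - T) ^ d` is a polynomial `h` of
degree three with `h (0) = 1`, and duality gives `h_3 = w`, `h_2 = w * conj h_1` with `|w| = 1`. In the
case (2) `w = 1` or `w = -1`. If the trace on `S₁` vanishes (or has real part `≤ 0` in the case
(2)), then `h_1` has real part `≤ - d`, and it follows that the traces have negative real parts
for all large `n`.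
-/

set_option autoImplicit false

namespace Pool.Agent.Results.MP_954e53_ag.FixedLociCoindexThree

open DirectSum Pool.Agent.P8H35.TR

variable {S : Type*} [CommRing S] [Algebra ℂ S] (𝒜 : ℕ → Submodule ℂ S) [GradedAlgebra 𝒜]

/-- the ideal of the fixed points of `σ` at which `σ` acts on the fibre of `O(1)` by `τ`, generated by
the elements `σ s - τ ^ n s`, `s` a form of degree `n` -/
def fixIdeal (σ : S ≃ₐ[ℂ] S) (τ : ℂ) : Ideal S :=
  Ideal.span {y | ∃ n, ∃ s ∈ 𝒜 n, y = σ s - τ ^ n • s}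

/-- the dimension of `S / fixIdeal` is at most `r`, that is, the dimension of the set of the fixed
points in question is at most `r - 1`: the forms of large degree are contained in the ideal
generated by `fixIdeal` and `r` forms of positive degree -/
def FixedConeDimLE (σ : S ≃ₐ[ℂ] S) (τ : ℂ) (r : ℕ) : Prop :=
  ∃ t : Finset S, t.card ≤ r ∧ (∀ x ∈ t, ∃ n, 0 < n ∧ x ∈ 𝒜 n) ∧
    ∃ N, ∀ n, N ≤ n → ∀ x ∈ 𝒜 n, x ∈ fixIdeal 𝒜 σ τ ⊔ Ideal.span (t : Set S)

/-- the trace of a graded automorphism on the part of degree `n` -/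
noncomputable def traceOn (σ : S ≃ₐ[ℂ] S) (hσ : ∀ n, ∀ x ∈ 𝒜 n, σ x ∈ 𝒜 n) (n : ℕ) : ℂ :=
  LinearMap.trace ℂ (𝒜 n) (LinearMap.restrict (σ : S →ₐ[ℂ] S).toLinearMap (hσ n))

/-- `σ` has a small fixed locus: it acts trivially on the fibres of `O(1)` at the fixed points, the
dimension of the fixed locus is at most `2 - a`, and the traces have nonnegative real part infinitely
often -/
def SmallFixedLocus (σ : S ≃ₐ[ℂ] S) (hσ : ∀ n, ∀ x ∈ 𝒜 n, σ x ∈ 𝒜 n) (a : ℤ) : Prop :=
  (∀ τ : ℂ, τ ≠ 0 → τ ≠ 1 → FixedConeDimLE 𝒜 σ τ 0) ∧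
  FixedConeDimLE 𝒜 σ 1 (3 - a).toNat ∧
  ∀ N, ∃ n, N ≤ n ∧ 0 ≤ (traceOn 𝒜 σ hσ n).re

/-- `S` is Gorenstein with `a`-invariant `a`, tested on the `G`-invariant parameters `θ i`:
they are a regular sequence of `G`-invariant forms of positive degrees `e i` such that
`S / (θ)` vanishes in large degrees and its socle is one-dimensional, spanned by the class of a form
`z` of degree `a + ∑ e i`. (`S` is finite over `S ^ G`, so there is a homogeneous system of
parameters consisting of invariants.) -/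
def GorensteinWith {G : Type*} [Group G] (ρ : G →* (S ≃ₐ[ℂ] S)) {D : ℕ} (a : ℤ) (θ : Fin D → S)
    (z : S) : Prop :=
  ∃ (e : Fin D → ℕ) (N s : ℕ),
    (∀ i, 0 < e i) ∧ (∀ i, θ i ∈ 𝒜 (e i)) ∧ (∀ g i, ρ g (θ i) = θ i) ∧
    RingTheory.Sequence.IsWeaklyRegular S (List.ofFn θ) ∧
    (∀ n, N ≤ n → ∀ x ∈ 𝒜 n, x ∈ Ideal.span (Set.range θ)) ∧
    (s : ℤ) = a + ∑ i, (e i : ℤ) ∧ z ∈ 𝒜 s ∧ z ∉ Ideal.span (Set.range θ) ∧
    ∀ y : S, (∀ m, 0 < m → ∀ x ∈ 𝒜 m, x * y ∈ Ideal.span (Set.range θ)) ↔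
      ∃ c : ℂ, y - c • z ∈ Ideal.span (Set.range θ)

variable {𝒜}

/-- The traces on the part of degree one. -/
theorem trace_bound [IsNoetherianRing S] (h0 : ∀ x ∈ 𝒜 0, ∃ c : ℂ, x = algebraMap ℂ S c)
    {G : Type*} [Group G] [Finite G] {ρ : G →* (S ≃ₐ[ℂ] S)}
    (hρ : ∀ g n, ∀ x ∈ 𝒜 n, ρ g x ∈ 𝒜 n) {D : ℕ} {a : ℤ} {θ : Fin D → S} {z : S}
    (hG : GorensteinWith 𝒜 ρ a θ z) (ha : a < 0) (g : G) (hg : SmallFixedLocus 𝒜 (ρ g) (hρ g) a) :
    traceOn 𝒜 (ρ g) (hρ g) 1 ≠ 0 ∧
      (ρ g z - z ∈ Ideal.span (Set.range θ) → 0 < (traceOn 𝒜 (ρ g) (hρ g) 1).re) := by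
  classical
  obtain ⟨e, N, s, he, hθ, hθρ, hreg, hN, hs, hz, hzJ, hsoc⟩ := hG
  obtain ⟨hg1, hg2, hg3⟩ := hg
  set r : ℕ := (3 - a).toNat with hr
  have hra : (r : ℤ) = 3 - a := Int.toNat_of_nonneg (by omega)
  have hr4 : 4 ≤ r := by omega
  obtain ⟨w, h, hdeg, hc0, hrev, hw, hwz, hser⟩ := sym_aut h0 (ρ g) (hρ g)
    (ρ.isOfFinOrder (isOfFinOrder_of_finite g)) θ e he hθ (hθρ g) hreg hN hz hzJ
    (fun y hy => (hsoc y).1 hy) r
    (by
      intro τ hτ
      by_cases h1 : τ = 1
      · subst h1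
        rw [if_pos rfl]
        exact hg2
      · rw [if_neg h1]
        exact hg1 τ hτ h1)
  have hdeg3 : h.natDegree = 3 := by
    have h2 : (h.natDegree : ℤ) + ∑ i, (e i : ℤ) = s + r := by exact_mod_cast hdeg
    omega
  obtain ⟨h3, h2⟩ := h_three hdeg3 hc0 hrev
  obtain ⟨k1, k2, k3⟩ := three_contra (by omega) hser hdeg3 hc0 h3 h2 (by
    intro M
    obtain ⟨n, hn, h4⟩ := hg3 M
    refine ⟨n, hn, ?_⟩
    rw [PowerSeries.coeff_mk]
    exact h4)
  obtain ⟨l0, l1⟩ := coeff_one_sub_pow (PowerSeries.mk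
    (fun n => LinearMap.trace ℂ (𝒜 n)
      (resPiece ((ρ g : S ≃ₐ[ℂ] S) : S →ₐ[ℂ] S).toLinearMap (hρ g) n))) r
  rw [hser, Polynomial.coeff_coe] at l0 l1
  rw [← l0, hc0, mul_one, PowerSeries.coeff_mk] at l1
  have hT : traceOn 𝒜 (ρ g) (hρ g) 1 = h.coeff 1 + r := by
    rw [l1]
    exact (sub_add_cancel _ _).symm
  have hr4' : (4 : ℝ) ≤ r := by exact_mod_cast hr4
  constructor
  · intro h0'
    rw [hT] at h0'
    have h4 : h.coeff 1 = -(r : ℂ) := eq_neg_of_add_eq_zero_left h0'
    have h5 : (h.coeff 1).re = -(r : ℝ) := by rw [h4]; simp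
    have h6 : (h.coeff 1).im = 0 := by rw [h4]; simp
    by_cases hw1 : w.re = -1
    · have h7 : w.im = 0 := by
        have h8 : w.re ^ 2 + w.im ^ 2 = 1 := by
          have h9 := Complex.sq_norm w
          rw [hw, Complex.normSq_apply] at h9
          nlinarith
        rw [hw1] at h8
        nlinarith
      have h8 := k2 (Complex.ext (by rw [hw1]; simp) (by rw [h7]; simp))
      linarith
    · have h7 : -1 ≤ w.re := by
        have h8 := Complex.abs_re_le_norm w
        rw [hw] at h8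
        exact (abs_le.1 h8).1
      have h8 := k3 hw1 h6 (lt_of_le_of_ne h7 (Ne.symm hw1))
      linarith
  · intro hzz
    have h4 := hwz hzz
    rw [hT, Complex.add_re, Complex.natCast_re]
    rcases neg_one_pow_eq_or ℂ (D + r) with h5 | h5
    · have h6 := k1 (by rw [h4, h5])
      linarith
    · have h6 := k2 (by rw [h4, h5])
      linarith

/-- Automorphisms with fixed loci of dimension at most `2 - a`. -/
theorem result [IsNoetherianRing S] (h0 : ∀ x ∈ 𝒜 0, ∃ c : ℂ, x = algebraMap ℂ S c)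
    {G : Type*} [Group G] [Finite G] (ρ : G →* (S ≃ₐ[ℂ] S))
    (hρ : ∀ g n, ∀ x ∈ 𝒜 n, ρ g x ∈ 𝒜 n) (D : ℕ) (a : ℤ) (θ : Fin D → S) (z : S)
    (hG : GorensteinWith 𝒜 ρ a θ z) (ha : a < 0) :
    ((∃ g, SmallFixedLocus 𝒜 (ρ g) (hρ g) a) → ∃ x ∈ 𝒜 1, x ≠ 0) ∧
    ((∃ g : G, g ≠ 1) → (∀ g ≠ 1, SmallFixedLocus 𝒜 (ρ g) (hρ g) a) →
      (∀ g, ρ g z - z ∈ Ideal.span (Set.range θ)) →
      ∃ x ∈ 𝒜 1, x ≠ 0 ∧ ∀ g, ρ g x = x) := by
  classical
  have hfd : FiniteDimensional ℂ (𝒜 1) := finite_pieces (ℬ := 𝒜) h0 1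
  refine ⟨?_, ?_⟩
  · rintro ⟨g, hg⟩
    obtain ⟨h1, -⟩ := trace_bound h0 hρ hG ha g hg
    by_contra hcon
    push Not at hcon
    apply h1
    have h2 : LinearMap.restrict ((ρ g : S ≃ₐ[ℂ] S) : S →ₐ[ℂ] S).toLinearMap (hρ g 1)
        = (0 : 𝒜 1 →ₗ[ℂ] 𝒜 1) := by
      apply LinearMap.ext
      intro x
      apply Subtype.ext
      exact hcon _ (LinearMap.restrict ((ρ g : S ≃ₐ[ℂ] S) : S →ₐ[ℂ] S).toLinearMap (hρ g 1) x).2
    rw [traceOn, h2, map_zero]
  · rintro ⟨g₀, hg₀⟩ hsmall hsoc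
    have := Fintype.ofFinite G
    let f : G → (𝒜 1 →ₗ[ℂ] 𝒜 1) := fun g =>
      LinearMap.restrict ((ρ g : S ≃ₐ[ℂ] S) : S →ₐ[ℂ] S).toLinearMap (hρ g 1)
    have hf : ∀ g (x : 𝒜 1), ((f g x : 𝒜 1) : S) = ρ g x := fun g x => rfl
    by_contra hcon
    push Not at hcon
    have hsum : ∑ g, f g = 0 := by
      apply LinearMap.ext
      intro x
      have h1 : ∀ g', ρ g' (((∑ g, f g) x : 𝒜 1) : S) = (((∑ g, f g) x : 𝒜 1) : S) := by
        intro g'
        have h2 : (((∑ g, f g) x : 𝒜 1) : S) = ∑ g, ρ g x := by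
          rw [LinearMap.sum_apply, AddSubmonoidClass.coe_finsetSum]
          exact Finset.sum_congr rfl fun g _ => hf g x
        rw [h2, map_sum]
        have h3 : ∀ g, ρ g' (ρ g x) = ρ (g' * g) x := by
          intro g
          rw [map_mul]
          rfl
        simp only [h3]
        exact Fintype.sum_equiv (Equiv.mulLeft g') _ _ (fun g => rfl)
      by_contra hne
      obtain ⟨g, hg⟩ := hcon _ ((∑ g, f g) x).2 (fun h => hne (Subtype.ext h))
      exact hg (h1 g)
    have h1 : f 1 = LinearMap.id := by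
      apply LinearMap.ext
      intro x
      apply Subtype.ext
      rw [hf, map_one]
      rfl
    have h2 := congrArg (LinearMap.trace ℂ (𝒜 1)) hsum
    rw [map_sum, map_zero, ← Finset.add_sum_erase _ _ (Finset.mem_univ (1 : G)), h1,
      LinearMap.trace_id] at h2
    have h3 := congrArg Complex.re h2
    rw [Complex.add_re, Complex.natCast_re, Complex.zero_re, Complex.re_sum] at h3
    have h4 : 0 < ∑ g ∈ Finset.univ.erase (1 : G), (LinearMap.trace ℂ (𝒜 1) (f g)).re := by
      apply Finset.sum_pos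
      · intro g hg
        exact (trace_bound h0 hρ hG ha g (hsmall g (Finset.ne_of_mem_erase hg))).2 (hsoc g)
      · exact ⟨g₀, Finset.mem_erase.2 ⟨hg₀, Finset.mem_univ _⟩⟩
    have h5 : (0 : ℝ) ≤ Module.finrank ℂ (𝒜 1) := Nat.cast_nonneg _
    linarith

end Pool.Agent.Results.MP_954e53_ag.FixedLociCoindexThree
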