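import Pool.Agent.P8H35.TR.Aut
import Pool.Agent.P8H35.TR.Roots

/-!
# Quotients of Gorenstein section rings by finite groups with small fixed loci

`S` is a Noetherian `ℕ`-graded algebra over an algebraically closed field `k` of characteristic
zero with `S₀ = k`, Gorenstein of arbitrary dimension with `a`-invariant `a < 0`, and `G ≠ 1` a finite
group of graded automorphisms. Suppose that every `g ≠ 1` acts trivially on the fibres of `O(1)`
at its fixed points on `X = Proj S` (so that `O(1)` descends to an invertible sheaf on `X / G` there),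
and that the fixed locus of `g` has dimension at most `- a`. Then the ring of invariants `S ^ G`,
the section ring of `X / G`, contains a nonzero element of degree one.

For example: let `X'` be a Fano variety with Gorenstein canonical singularities of dimension at most
`r`, `r ≥ 1` and `- K = r L`, `L` invertible. If the regular locus of `X'` has a nontrivial finite
étale covering, then `L` has a nonzero section. (Take for `X` the normalization of `X'` in a Galois
covering, and for `S` the section ring of the pull-back of `L`.)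

Proof: for `g ≠ 1` the trace of `g` on `S₁` is `1 - a` plus a root of unity (see the file
`FiniteOrderAutomorphisms`), and `1 - a ≥ 2`. So the sum of the traces of all elements of `G`, the
order of `G` times the dimension of the invariants, is not zero.
-/

set_option autoImplicit false

namespace Pool.Agent.Results.MP_954e53_ag.QuotientsSmallFixedLoci

open DirectSum Pool.Agent.P8H35.TR

variable {k S : Type*} [Field k] [CommRing S] [Algebra k S] (𝒜 : ℕ → Submodule k S)
  [GradedAlgebra 𝒜]

/-- the ideal of the fixed points of `σ` at which `σ` acts on the fibre of `O(1)` by `τ`, generated by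
the elements `σ s - τ ^ n s`, `s` a form of degree `n` -/
def fixIdeal (σ : S ≃ₐ[k] S) (τ : k) : Ideal S :=
  Ideal.span {y | ∃ n, ∃ s ∈ 𝒜 n, y = σ s - τ ^ n • s}

/-- the dimension of `S / fixIdeal` is at most `r`, that is, the dimension of the set of the fixed
points in question is at most `r - 1`: the forms of large degree are contained in the ideal
generated by `fixIdeal` and `r` forms of positive degree -/
def FixedConeDimLE (σ : S ≃ₐ[k] S) (τ : k) (r : ℕ) : Prop :=
  ∃ t : Finset S, t.card ≤ r ∧ (∀ x ∈ t, ∃ n, 0 < n ∧ x ∈ 𝒜 n) ∧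
    ∃ N, ∀ n, N ≤ n → ∀ x ∈ 𝒜 n, x ∈ fixIdeal 𝒜 σ τ ⊔ Ideal.span (t : Set S)

/-- `S` is Gorenstein of dimension `D` with `a`-invariant `a`, tested on `G`-invariant parameters:
there is a regular sequence of `D` `G`-invariant forms `θ i` of positive degrees `e i` such that
`S / (θ)` vanishes in large degrees and its socle is one-dimensional, spanned by the class of a form
`z` of degree `a + ∑ e i`. (`S` is finite over `S ^ G`, so there is a homogeneous system of
parameters consisting of invariants.) -/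
def GorensteinOf {G : Type*} [Group G] (ρ : G →* (S ≃ₐ[k] S)) (D : ℕ) (a : ℤ) : Prop :=
  ∃ (θ : Fin D → S) (e : Fin D → ℕ) (N s : ℕ) (z : S),
    (∀ i, 0 < e i) ∧ (∀ i, θ i ∈ 𝒜 (e i)) ∧ (∀ g i, ρ g (θ i) = θ i) ∧
    RingTheory.Sequence.IsWeaklyRegular S (List.ofFn θ) ∧
    (∀ n, N ≤ n → ∀ x ∈ 𝒜 n, x ∈ Ideal.span (Set.range θ)) ∧
    (s : ℤ) = a + ∑ i, (e i : ℤ) ∧ z ∈ 𝒜 s ∧ z ∉ Ideal.span (Set.range θ) ∧
    ∀ y : S, (∀ m, 0 < m → ∀ x ∈ 𝒜 m, x * y ∈ Ideal.span (Set.range θ)) ↔
      ∃ c : k, y - c • z ∈ Ideal.span (Set.range θ)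

/-- Quotients of Gorenstein section rings by finite groups with small fixed loci. -/
theorem result [IsAlgClosed k] [CharZero k] [IsNoetherianRing S]
    (h0 : ∀ x ∈ 𝒜 0, ∃ c : k, x = algebraMap k S c)
    {G : Type*} [Group G] [Finite G] [Nontrivial G] (ρ : G →* (S ≃ₐ[k] S))
    (hρ : ∀ g n, ∀ x ∈ 𝒜 n, ρ g x ∈ 𝒜 n) (D : ℕ) (a : ℤ) (hG : GorensteinOf 𝒜 ρ D a)
    (ha : a < 0)
    (htriv : ∀ g ≠ 1, ∀ τ : k, τ ≠ 0 → τ ≠ 1 → FixedConeDimLE 𝒜 (ρ g) τ 0)
    (hfix : ∀ g ≠ 1, FixedConeDimLE 𝒜 (ρ g) 1 (1 - a).toNat) :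
    ∃ x ∈ 𝒜 1, x ≠ 0 ∧ ∀ g, ρ g x = x := by
  classical
  obtain ⟨θ, e, N, s, z, he, hθ, hθρ, hreg, hN, hs, hz, hzJ, hsoc⟩ := hG
  have hfd : FiniteDimensional k (𝒜 1) := finite_pieces (ℬ := 𝒜) h0 1
  have := Fintype.ofFinite G
  set r : ℕ := (1 - a).toNat with hr
  have hra : (r : ℤ) = 1 - a := Int.toNat_of_nonneg (by omega)
  have hr2 : 2 ≤ r := by omega
  let f : G → (𝒜 1 →ₗ[k] 𝒜 1) := fun g => resPiece ((ρ g : S →ₐ[k] S)).toLinearMap (hρ g) 1
  have hf : ∀ g (x : 𝒜 1), ((f g x : 𝒜 1) : S) = ρ g x := fun g x => rfl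
  -- the traces
  have htr : ∀ g : G, ∃ κ : k, g ≠ 1 → IsOfFinOrder κ ∧ LinearMap.trace k (𝒜 1) (f g) = r + κ := by
    intro g
    by_cases hg : g = 1
    · exact ⟨0, fun h => absurd hg h⟩
    have hsupp : (Finsupp.single (1 : kˣ) r).support = {1} :=
      Finsupp.support_single_ne_zero _ (by omega)
    obtain ⟨h, hdeg, hlead, hc0, htr⟩ := trace_aut h0 (ρ g) (hρ g)
      (ρ.isOfFinOrder (isOfFinOrder_of_finite g)) θ e he hθ (hθρ g) hreg hN hz hzJ
      (fun y hy => (hsoc y).1 hy) (Finsupp.single 1 r)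
      (by
        intro τ
        by_cases hτ : τ = 1
        · subst hτ
          rw [Finsupp.single_eq_same]
          exact hfix g hg
        · rw [Finsupp.single_eq_of_ne hτ]
          exact htriv g hg τ τ.ne_zero (fun h => hτ (Units.ext h)))
      (by
        intro τ hτ
        rw [hsupp, Finset.mem_singleton] at hτ
        rw [hτ]
        exact IsOfFinOrder.one)
    rw [hsupp, Finset.sum_singleton, Finsupp.single_eq_same] at hdeg htr
    refine ⟨h.coeff 1, fun _ => ⟨?_, ?_⟩⟩
    · have h1 : h.natDegree = 1 := by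
        have h2 : (h.natDegree : ℤ) + ∑ i, (e i : ℤ) = s + r := by exact_mod_cast hdeg
        omega
      rw [Polynomial.leadingCoeff, h1] at hlead
      exact hlead
    · rw [Units.val_one, mul_one] at htr
      exact htr
  choose κ hκ using htr
  by_contra hcon
  push Not at hcon
  have hsum : ∑ g, f g = 0 := by
    apply LinearMap.ext
    intro x
    have h1 : ∀ g', ρ g' (((∑ g, f g) x : 𝒜 1) : S) = (((∑ g, f g) x : 𝒜 1) : S) := by
      intro g'
      have h2 : (((∑ g, f g) x : 𝒜 1) : S) = ∑ g, ρ g x := by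
        rw [LinearMap.sum_apply, AddSubmonoidClass.coe_finsetSum]
        exact Finset.sum_congr rfl fun g _ => hf g x
      rw [h2, map_sum]
      have h3 : ∀ g, ρ g' (ρ g x) = ρ (g' * g) x := by
        intro g
        rw [map_mul]
        rfl
      simp only [h3]
      exact Fintype.sum_equiv (Equiv.mulLeft g') _ _ (fun g => rfl)
    by_contra hne
    obtain ⟨g, hg⟩ := hcon _ ((∑ g, f g) x).2 (fun h => hne (Subtype.ext h))
    exact hg (h1 g)
  have h1 : f 1 = LinearMap.id := by
    apply LinearMap.ext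
    intro x
    apply Subtype.ext
    rw [hf, map_one]
    rfl
  have h2 := congrArg (LinearMap.trace k (𝒜 1)) hsum
  rw [map_sum, map_zero, ← Finset.add_sum_erase _ _ (Finset.mem_univ (1 : G)), h1,
    LinearMap.trace_id, Finset.sum_congr rfl
      (fun g hg => (hκ g (Finset.ne_of_mem_erase hg)).2)] at h2
  refine sum_roots_ne (Finset.univ.erase (1 : G)) ?_ κ
    (fun g hg => (hκ g (Finset.ne_of_mem_erase hg)).1) _ r hr2 h2
  obtain ⟨g, hg⟩ := exists_ne (1 : G)
  exact ⟨g, Finset.mem_erase.2 ⟨hg, Finset.mem_univ _⟩⟩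

end Pool.Agent.Results.MP_954e53_ag.QuotientsSmallFixedLoci
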